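import Pool.Agent.Helper40_Dio.FStmt
import Pool.Agent.Helper65_Dio.CLZ

/-! CLG: classification of `z` for a triple which is not an Euler triple. -/

set_option autoImplicit false

namespace Pool.Agent.DIO.H76

open Pool.Agent.DIO

/-- Passing from an odd index to an even one. -/
theorem neighbour (b c t z y Z Y : ℤ) (j : ℕ) (hb : 0 < b) (hbc : b < c) (ht : 0 < t)
    (htt : t * t = b * c + 1) (hy : 2 ≤ y) (hp : b * z ^ 2 - c * y ^ 2 = b - c)
    (hz : 4 * z ^ 2 < c ^ 2) (hj : Odd j) (e : sqg b c t z y j = (Z, Y)) :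
    ∃ (n : ℕ) (z' y' : ℤ), 0 < y' ∧ b * z' ^ 2 - c * y' ^ 2 = b - c ∧ 4 * z' ^ 2 < c ^ 2 ∧
      sqg b c t z' y' (2 * n) = (Z, Y) := by
  rcases le_or_gt 0 z with h0 | h0
  · have hsm := H65.small b c t z y hb hbc ht htt hy hp hz h0
    obtain ⟨n, hn⟩ := hj.add_one
    refine ⟨n, t * z - c * y, t * y - b * z,
      H65.pos_step b c t z y hb hbc ht htt (by linarith) hp, H65.inv_step b c t z y htt hp, ?_, ?_⟩
    · have : (t * z - c * y) ^ 2 = (c * y - t * z) ^ 2 := by ring
      rw [this]; exact hsm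
    · rw [two_mul, ← hn, H65.sqg_succ']
      have i1 : t * (t * z - c * y) + c * (t * y - b * z) = z := by linear_combination z * htt
      have i2 : t * (t * y - b * z) + b * (t * z - c * y) = y := by linear_combination y * htt
      rw [i1, i2]
      exact e
  · have hsm := H65.small b c t (-z) y hb hbc ht htt hy (by linear_combination hp)
      (by linear_combination hz) (by linarith)
    have hpos := H65.pos_step b c t (-z) y hb hbc ht htt (by linarith) (by linear_combination hp)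
    obtain ⟨n, hn⟩ := hj
    refine ⟨n, t * z + c * y, t * y + b * z, by linarith, H65.inv_step' b c t z y htt hp, ?_, ?_⟩
    · have : (t * z + c * y) ^ 2 = (c * y - t * (-z)) ^ 2 := by ring
      rw [this]; exact hsm
    · rw [← H65.sqg_succ', ← hn]
      exact e

/-- Representation with an even index, or with the base `(±1, 1)` and an odd index. -/
theorem repr (hP : PelStatement) (a c s z x : ℤ) (ha : 0 < a) (hac : a < c) (hs : 0 < s)
    (hss : s * s = a * c + 1) (hz : 0 < z) (hx : 0 < x) (hp : a * z ^ 2 - c * x ^ 2 = a - c) :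
    (∃ (n : ℕ) (z0 x0 : ℤ), 0 < x0 ∧ a * z0 ^ 2 - c * x0 ^ 2 = a - c ∧ 4 * z0 ^ 2 < c ^ 2 ∧
      sqg a c s z0 x0 (2 * n) = (z, x)) ∨
    (∃ (n : ℕ) (ε : ℤ), (ε = 1 ∨ ε = -1) ∧ sqg a c s ε 1 (2 * n + 1) = (z, x)) := by
  obtain ⟨k, z0, x0, hx0, q0, l0, e0⟩ := hP a c s z x ha hac hs hss hz hx hp
  rcases Nat.even_or_odd k with hk | hk
  · obtain ⟨n, hn⟩ := hk
    left
    exact ⟨n, z0, x0, hx0, q0, l0, by rw [two_mul, ← hn]; exact e0⟩
  · have hx12 : 2 ≤ x0 ∨ x0 = 1 := by omega
    rcases hx12 with hx2 | hx2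
    · left
      exact neighbour a c s z0 x0 z x k ha hac hs hss hx2 q0 l0 hk e0
    · right
      subst hx2
      obtain ⟨n, hn⟩ := hk
      have hz0 : z0 * z0 = 1 := by
        have : a * (z0 * z0 - 1) = 0 := by linear_combination q0
        rcases mul_eq_zero.1 this with h | h
        · omega
        · linarith
      exact ⟨n, z0, H65.pm_of_sq z0 hz0, by rw [← hn]; exact e0⟩

/-- LEMMA D. -/
theorem lemD (a b c : ℕ) (ζ p q : ℤ) (hc : 1 < c) (hp0 : 0 < p) (hq0 : 0 < q)
    (h1 : (a : ℤ) * ζ ^ 2 - c * p ^ 2 = (a : ℤ) - c) (h2 : (b : ℤ) * ζ ^ 2 - c * q ^ 2 = (b : ℤ) - c)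
    (h3 : 4 * ζ ^ 2 < (c : ℤ) ^ 2) (h4 : (c : ℤ) ∣ ζ * ζ - 1) :
    ∃ (f W F1 F2 : ℕ) (ε : ℤ), (ε = 1 ∨ ε = -1) ∧ W * W = c * f + 1 ∧ F1 * F1 = a * f + 1 ∧
      F2 * F2 = b * f + 1 ∧ 4 * f < c ∧ ε * W = ζ ∧ (F1 : ℤ) = p ∧ (F2 : ℤ) = q := by
  have hcpos : (1 : ℤ) < (c : ℤ) := by exact_mod_cast hc
  obtain ⟨d, hd⟩ := h4
  have hw : 1 ≤ ζ * ζ := by
    by_contra hcon
    have h0 : ζ * ζ = 0 := le_antisymm (by omega) (mul_self_nonneg ζ)
    rw [h0] at hd
    have hdd : (c : ℤ) ∣ 1 := ⟨-d, by linarith⟩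
    have := Int.le_of_dvd one_pos hdd
    omega
  have hd0 : 0 ≤ d := by
    by_contra hcon
    push Not at hcon
    nlinarith
  have hp : (a : ℤ) * d + 1 = p * p := by
    have : (c : ℤ) * (a * d + 1 - p * p) = 0 := by
      linear_combination h1 - a * hd
    rcases mul_eq_zero.1 this with h | h
    · omega
    · linarith
  have hq : (b : ℤ) * d + 1 = q * q := by
    have : (c : ℤ) * (b * d + 1 - q * q) = 0 := by
      linear_combination h2 - b * hd
    rcases mul_eq_zero.1 this with h | h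
    · omega
    · linarith
  have h4d : 4 * d < c := by
    have h5 : (c : ℤ) * (4 * d) < c * c := by
      have : ζ * ζ = c * d + 1 := by linarith
      nlinarith
    exact lt_of_mul_lt_mul_left h5 (by linarith)
  obtain ⟨f, rfl⟩ := Int.eq_ofNat_of_zero_le hd0
  obtain ⟨P, rfl⟩ := Int.eq_ofNat_of_zero_le hp0.le
  obtain ⟨Q, rfl⟩ := Int.eq_ofNat_of_zero_le hq0.le
  rcases le_or_gt 0 ζ with hζ | hζ
  · obtain ⟨W, rfl⟩ := Int.eq_ofNat_of_zero_le hζ
    refine ⟨f, W, P, Q, 1, Or.inl rfl, ?_, ?_, ?_, by exact_mod_cast h4d, by ring, rfl, rfl⟩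
    · have : (W : ℤ) * W = c * f + 1 := by linarith
      exact_mod_cast this
    · exact_mod_cast hp.symm
    · exact_mod_cast hq.symm
  · obtain ⟨W, hW⟩ := Int.eq_ofNat_of_zero_le (neg_pos.mpr hζ).le
    have hζW : ζ = -(W : ℤ) := by linarith
    refine ⟨f, W, P, Q, -1, Or.inr rfl, ?_, ?_, ?_, by exact_mod_cast h4d, by rw [hζW]; ring,
      rfl, rfl⟩
    · have : (W : ℤ) * W = c * f + 1 := by
        rw [hζW] at hd
        linarith
      exact_mod_cast this
    · exact_mod_cast hp.symm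
    · exact_mod_cast hq.symm

theorem eq_of_sq {p r : ℤ} (hp : 0 < p) (hr : 0 ≤ r) (h : p * p = r * r) : p = r := by
  have h1 : (p - r) * (p + r) = 0 := by linear_combination h
  rcases mul_eq_zero.1 h1 with h2 | h2
  · linarith
  · linarith

theorem clg (hP : PelStatement) : ClgStatement := by
  intro a b c d r s t g u v w x y z hC hN
  obtain ⟨ha, hab, hbc, hcd, hr, hs, ht, hx, hy, hz, x2, y2, z2⟩ := hC
  have hA : (0 : ℤ) < a := by exact_mod_cast ha
  have hAB : (a : ℤ) < b := by exact_mod_cast hab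
  have hB : (0 : ℤ) < b := hA.trans hAB
  have hBC : (b : ℤ) < c := by exact_mod_cast hbc
  have hCC : (0 : ℤ) < c := hB.trans hBC
  have hCD : (c : ℤ) < d := by exact_mod_cast hcd
  have hR : (r : ℤ) * r = a * b + 1 := by exact_mod_cast hr
  have hS : (s : ℤ) * s = a * c + 1 := by exact_mod_cast hs
  have hT : (t : ℤ) * t = b * c + 1 := by exact_mod_cast ht
  have hr0 : (0 : ℤ) < r := by
    have h0 : (0 : ℤ) ≤ r := Int.natCast_nonneg r
    rcases h0.eq_or_lt with h | h
    · rw [← h] at hR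
      have := mul_pos hA hB
      linarith
    · exact h
  have hs0 : (0 : ℤ) < s := by
    have h0 : (0 : ℤ) ≤ s := Int.natCast_nonneg s
    rcases h0.eq_or_lt with h | h
    · rw [← h] at hS
      have := mul_pos hA hCC
      linarith
    · exact h
  have ht0 : (0 : ℤ) < t := by
    have h0 : (0 : ℤ) ≤ t := Int.natCast_nonneg t
    rcases h0.eq_or_lt with h | h
    · rw [← h] at hT
      have := mul_pos hB hCC
      linarith
    · exact h
  -- `12 b < c`
  have hag : 3 ≤ a * g := by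
    have h1 := hN.hu
    have h2 : 0 < a * g := Nat.mul_pos ha hN.hg
    have h3 : u ≠ 0 := by
      rintro rfl
      omega
    have h4 : u ≠ 1 := by
      rintro rfl
      omega
    have h5 : 2 ≤ u := by omega
    have h6 : 2 * 2 ≤ u * u := Nat.mul_le_mul h5 h5
    omega
  have h12 : (12 * b : ℤ) < c := by
    have h1 : 4 * (a * b * g) < c := hN.c_gt
    have h2 : 3 * b ≤ a * b * g := by
      have := Nat.mul_le_mul_right b hag
      calc 3 * b ≤ a * g * b := this
        _ = a * b * g := by ring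
    have : 12 * b < c := by omega
    exact_mod_cast this
  have h4t : 4 * (t : ℤ) ^ 2 < (c : ℤ) ^ 2 := by
    have e1 : 4 * (t : ℤ) ^ 2 = 4 * b * c + 4 := by linear_combination 4 * hT
    rw [e1]
    nlinarith
  have hst : (s : ℤ) * s < t * t := by
    rw [hS, hT]
    have := mul_lt_mul_of_pos_right hAB hCC
    linarith
  have h4s : 4 * (s : ℤ) ^ 2 < (c : ℤ) ^ 2 := by
    have : 4 * (s : ℤ) ^ 2 < 4 * (t : ℤ) ^ 2 := by linear_combination 4 * hst
    linarith
  have hz1 : (z : ℤ) * z - 1 = c * d := by linarith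
  have rp := repr hP a c s z x hA (hAB.trans hBC) hs0 hS hz hx
    (by linear_combination (a : ℤ) * z2 - c * x2)
  have rq := repr hP b c t z y hB hBC ht0 hT hz hy
    (by linear_combination (b : ℤ) * z2 - c * y2)
  rcases rp with ⟨n, z0, x0, hx0, q0, l0, e0⟩ | ⟨n, ε, hε, e0⟩ <;>
    rcases rq with ⟨m, z1, y1, hy1, q1, l1, e1⟩ | ⟨m, ε', hε', e1⟩
  · -- TypE
    left
    have m0 := (H65.sqg_mod a c s z0 x0 hS (2 * n)).1 (even_two_mul n)
    have m1 := (H65.sqg_mod b c t z1 y1 hT (2 * m)).1 (even_two_mul m)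
    rw [e0] at m0
    rw [e1] at m1
    obtain ⟨p, hp⟩ := m0
    obtain ⟨q, hq⟩ := m1
    dsimp only at hp hq
    have hzz : z0 = z1 := H65.eq_of_dvd c z0 z1 hCC ⟨q - p, by linear_combination hq - hp⟩ l0 l1
    subst hzz
    obtain ⟨f, W, F1, F2, ε, hε, f1, f2, f3, f4, f5, f6, f7⟩ := lemD a b c z0 x0 y1
      (by omega) hx0 hy1 q0 q1 l0 ⟨d - p * (z + z0), by linear_combination hz1 - (z + z0) * hp⟩
    have hne : z ≠ z0 := by
      rintro rfl
      have h1 : (c : ℤ) * f + 1 = c * d + 1 := by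
        have h2 : (W : ℤ) * W = c * f + 1 := by exact_mod_cast f1
        have h3 : (W : ℤ) * W = z * z := by
          rw [← f5]
          rcases hε with h | h <;> rw [h] <;> ring
        rw [← h2, h3, z2]
      have h2 : (f : ℤ) = d := mul_left_cancel₀ hCC.ne' (by linarith)
      have h3 : f = d := by exact_mod_cast h2
      omega
    refine ⟨f, W, F1, F2, ε, n, m, hε, f1, f2, f3, f4, ?_, ?_, ?_, ?_⟩
    · rcases Nat.eq_zero_or_pos n with h | h
      · exfalso
        rw [h] at e0
        exact hne (congrArg Prod.fst e0).symm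
      · exact h
    · rcases Nat.eq_zero_or_pos m with h | h
      · exfalso
        rw [h] at e1
        exact hne (congrArg Prod.fst e1).symm
      · exact h
    · rw [f5, f6]; exact e0
    · rw [f5, f7]; exact e1
  · -- TypT
    right; right
    have m0 := (H65.sqg_mod a c s z0 x0 hS (2 * n)).1 (even_two_mul n)
    have m1 := (H65.sqg_mod b c t ε' 1 hT (2 * m + 1)).2 (by
      rw [Nat.not_even_iff_odd]; exact odd_two_mul_add_one m)
    rw [e0] at m0
    rw [e1] at m1
    obtain ⟨p, hp⟩ := m0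
    obtain ⟨q, hq⟩ := m1
    dsimp only at hp hq
    have hε2 : ε' * ε' = 1 := by rcases hε' with h | h <;> rw [h] <;> ring
    have hzz : z0 = ε' * t := H65.eq_of_dvd c z0 (ε' * t) hCC
      ⟨q - p, by linear_combination hq - hp⟩ l0 (by
        have : 4 * (ε' * t) ^ 2 = 4 * (t : ℤ) ^ 2 := by linear_combination 4 * (t : ℤ) ^ 2 * hε2
        rw [this]; exact h4t)
    have hxr : x0 = r := by
      apply eq_of_sq hx0 hr0.le
      have : (c : ℤ) * (x0 * x0 - r * r) = 0 := by
        rw [hzz] at q0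
        linear_combination (-1 : ℤ) * q0 + (a : ℤ) * t ^ 2 * hε2 + a * hT - c * hR
      rcases mul_eq_zero.1 this with h | h
      · omega
      · linarith
    refine ⟨ε', n, m, hε', ?_, ?_, e1⟩
    · rcases Nat.eq_zero_or_pos n with h | h
      · exfalso
        rw [h] at e0
        have h1 : z0 = z := congrArg Prod.fst e0
        have h2 : z * z = (t : ℤ) * t := by
          rw [← h1, hzz]
          linear_combination (t : ℤ) * t * hε2
        have h3 : (c : ℤ) * d = c * b := by linarith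
        have h4 := mul_left_cancel₀ hCC.ne' h3
        linarith
      · exact h
    · rw [← hzz, ← hxr]; exact e0
  · -- TypS
    right; left
    have m0 := (H65.sqg_mod a c s ε 1 hS (2 * n + 1)).2 (by
      rw [Nat.not_even_iff_odd]; exact odd_two_mul_add_one n)
    have m1 := (H65.sqg_mod b c t z1 y1 hT (2 * m)).1 (even_two_mul m)
    rw [e0] at m0
    rw [e1] at m1
    obtain ⟨p, hp⟩ := m0
    obtain ⟨q, hq⟩ := m1
    dsimp only at hp hq
    have hε2 : ε * ε = 1 := by rcases hε with h | h <;> rw [h] <;> ring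
    have hzz : z1 = ε * s := H65.eq_of_dvd c z1 (ε * s) hCC
      ⟨p - q, by linear_combination hp - hq⟩ l1 (by
        have : 4 * (ε * s) ^ 2 = 4 * (s : ℤ) ^ 2 := by linear_combination 4 * (s : ℤ) ^ 2 * hε2
        rw [this]; exact h4s)
    have hyr : y1 = r := by
      apply eq_of_sq hy1 hr0.le
      have : (c : ℤ) * (y1 * y1 - r * r) = 0 := by
        rw [hzz] at q1
        linear_combination (-1 : ℤ) * q1 + (b : ℤ) * s ^ 2 * hε2 + b * hS - c * hR
      rcases mul_eq_zero.1 this with h | h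
      · omega
      · linarith
    refine ⟨ε, n, m, hε, ?_, e0, ?_⟩
    · rcases Nat.eq_zero_or_pos m with h | h
      · exfalso
        rw [h] at e1
        have h1 : z1 = z := congrArg Prod.fst e1
        have h2 : z * z = (s : ℤ) * s := by
          rw [← h1, hzz]
          linear_combination (s : ℤ) * s * hε2
        have h3 : (c : ℤ) * d = c * a := by linarith
        have h4 := mul_left_cancel₀ hCC.ne' h3
        linarith
      · exact h
    · rw [← hzz, ← hyr]; exact e1
  · -- impossible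
    exfalso
    have m0 := (H65.sqg_mod a c s ε 1 hS (2 * n + 1)).2 (by
      rw [Nat.not_even_iff_odd]; exact odd_two_mul_add_one n)
    have m1 := (H65.sqg_mod b c t ε' 1 hT (2 * m + 1)).2 (by
      rw [Nat.not_even_iff_odd]; exact odd_two_mul_add_one m)
    rw [e0] at m0
    rw [e1] at m1
    obtain ⟨p, hp⟩ := m0
    obtain ⟨q, hq⟩ := m1
    dsimp only at hp hq
    have hε2 : ε * ε = 1 := by rcases hε with h | h <;> rw [h] <;> ring
    have hε2' : ε' * ε' = 1 := by rcases hε' with h | h <;> rw [h] <;> ring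
    have hzz : ε * s = ε' * t := H65.eq_of_dvd c (ε * s) (ε' * t) hCC
      ⟨q - p, by linear_combination hq - hp⟩ (by
        have : 4 * (ε * s) ^ 2 = 4 * (s : ℤ) ^ 2 := by linear_combination 4 * (s : ℤ) ^ 2 * hε2
        rw [this]; exact h4s) (by
        have : 4 * (ε' * t) ^ 2 = 4 * (t : ℤ) ^ 2 := by linear_combination 4 * (t : ℤ) ^ 2 * hε2'
        rw [this]; exact h4t)
    have h1 : (s : ℤ) * s = t * t := by
      have h2 : (ε * s) * (ε * s) = (ε' * t) * (ε' * t) := by rw [hzz]
      linear_combination h2 - (s : ℤ) * s * hε2 + t * t * hε2'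
    linarith

end Pool.Agent.DIO.H76
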