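import Pool.Agent.Helper40_Dio.FStmt

/-! NET: an Euler triple or the data `g, u, v, w`. -/

set_option autoImplicit false

namespace Pool.Agent.DIO.H76

open Pool.Agent.DIO

theorem not_sq_add_one {a u : ℤ} (ha : 0 < a) (hu : u * u = a * a + 1) (hup : 0 < u) : False := by
  have h1 : a < u := by nlinarith
  nlinarith

theorem net : NetStatement := by
  intro a b c r s t ha hab hbc hr hs ht
  have hrZ : (r : ℤ) * r = a * b + 1 := by exact_mod_cast hr
  have hsZ : (s : ℤ) * s = a * c + 1 := by exact_mod_cast hs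
  have htZ : (t : ℤ) * t = b * c + 1 := by exact_mod_cast ht
  have haZ : (0 : ℤ) < a := by exact_mod_cast ha
  have habZ : (a : ℤ) < b := by exact_mod_cast hab
  have hbcZ : (b : ℤ) < c := by exact_mod_cast hbc
  have hbZ : (0 : ℤ) < b := lt_trans haZ habZ
  have hcZ : (0 : ℤ) < c := lt_trans hbZ hbcZ
  have hr0 : (0 : ℤ) < r := by
    have : (0 : ℤ) ≤ r := Int.natCast_nonneg r
    nlinarith [mul_pos haZ hbZ]
  have hs0 : (0 : ℤ) < s := by
    have : (0 : ℤ) ≤ s := Int.natCast_nonneg s
    nlinarith [mul_pos haZ hcZ]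
  have ht0 : (0 : ℤ) < t := by
    have : (0 : ℤ) ≤ t := Int.natCast_nonneg t
    nlinarith [mul_pos hbZ hcZ]
  obtain ⟨g, hg⟩ : ∃ g : ℤ, g = a + b + c + 2 * a * b * c - 2 * r * s * t := ⟨_, rfl⟩
  obtain ⟨u, hu⟩ : ∃ u : ℤ, u = r * s - a * t := ⟨_, rfl⟩
  obtain ⟨v, hv⟩ : ∃ v : ℤ, v = r * t - b * s := ⟨_, rfl⟩
  have hu2 : u * u = a * g + 1 := by
    rw [hu, hg]
    linear_combination (s * s : ℤ) * hrZ + (a * b + 1 : ℤ) * hsZ + (a * a : ℤ) * htZ
  have hv2 : v * v = b * g + 1 := by
    rw [hv, hg]
    linear_combination (t * t : ℤ) * hrZ + (a * b + 1 : ℤ) * htZ + (b * b : ℤ) * hsZ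
  have hup : 0 < u := by
    have h1 : (a * t : ℤ) * (a * t) < (r * s) * (r * s) := by
      have e1 : (r * s : ℤ) * (r * s) - (a * t) * (a * t) = a * b + a * (c - a) + 1 := by
        linear_combination (s * s : ℤ) * hrZ + (a * b + 1 : ℤ) * hsZ - (a * a : ℤ) * htZ
      have e2 : 0 < (a * b : ℤ) + a * (c - a) + 1 := by
        have := mul_pos haZ hbZ
        have := mul_pos haZ (by linarith : (0 : ℤ) < c - a)
        linarith
      linarith
    have h2 : (a * t : ℤ) < r * s := lt_of_mul_self_lt_mul_self₀ (mul_pos hr0 hs0).le h1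
    rw [hu]; linarith
  have hvp : 0 < v := by
    have h1 : (b * s : ℤ) * (b * s) < (r * t) * (r * t) := by
      have e1 : (r * t : ℤ) * (r * t) - (b * s) * (b * s) = a * b + b * (c - b) + 1 := by
        linear_combination (t * t : ℤ) * hrZ + (a * b + 1 : ℤ) * htZ - (b * b : ℤ) * hsZ
      have e2 : 0 < (a * b : ℤ) + b * (c - b) + 1 := by
        have := mul_pos haZ hbZ
        have := mul_pos hbZ (by linarith : (0 : ℤ) < c - b)
        linarith
      linarith
    have h2 : (b * s : ℤ) < r * t := lt_of_mul_self_lt_mul_self₀ (mul_pos hr0 ht0).le h1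
    rw [hv]; linarith
  have hs_eq : (s : ℤ) = a * v + r * u := by
    rw [hu, hv]
    linear_combination (-s : ℤ) * hrZ
  have ht_eq : (t : ℤ) = b * u + r * v := by
    rw [hu, hv]
    linear_combination (-t : ℤ) * hrZ
  have hc_eq : (c : ℤ) = a + b + g + 2 * a * b * g + 2 * (r * (u * v)) := by
    have h1 : (a : ℤ) * c = a * (a + b + g + 2 * a * b * g + 2 * (r * (u * v))) := by
      have h2 : (s : ℤ) * s = (a * v + r * u) * (a * v + r * u) := by
        rw [← hs_eq]
      linear_combination h2 - hsZ + (a * a : ℤ) * hv2 + (u * u) * hrZ + (a * b + 1 : ℤ) * hu2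
    exact mul_left_cancel₀ haZ.ne' h1
  have hg0 : 0 ≤ g := by
    by_contra hcon
    push Not at hcon
    have h1 : 0 < u * u := mul_pos hup hup
    nlinarith
  obtain ⟨w, hw⟩ : ∃ w : ℤ, w = g * r + u * v := ⟨_, rfl⟩
  have hwp : 0 < w := by
    rw [hw]
    have := mul_pos hup hvp
    have := mul_nonneg hg0 hr0.le
    linarith
  have hw2 : w * w = c * g + 1 := by
    rw [hw, hc_eq]
    linear_combination (g * g) * hrZ + (v * v) * hu2 + (a * g + 1) * hv2
  have hw' : w + s * t = c * r := by
    rw [hw]
    have h1 : (s : ℤ) * t = (a * v + r * u) * (b * u + r * v) := by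
      rw [← hs_eq, ← ht_eq]
    have h2 : (c : ℤ) * r = (a + b + g + 2 * a * b * g + 2 * (r * (u * v))) * r := by
      rw [← hc_eq]
    linear_combination h1 - h2 + (-u * v : ℤ) * hrZ + (a * r : ℤ) * hv2 + (b * r : ℤ) * hu2
  rcases hg0.eq_or_lt with h0 | hgp
  · left
    have hu1 : u = 1 := by
      have : u * u = 1 := by rw [hu2, ← h0]; ring
      nlinarith
    have hv1 : v = 1 := by
      have : v * v = 1 := by rw [hv2, ← h0]; ring
      nlinarith
    have : (c : ℤ) = a + b + 2 * r := by
      rw [hc_eq, hu1, hv1, ← h0]; ring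
    exact_mod_cast this
  · right
    obtain ⟨g', rfl⟩ := Int.eq_ofNat_of_zero_le hg0
    obtain ⟨u', rfl⟩ := Int.eq_ofNat_of_zero_le hup.le
    obtain ⟨v', rfl⟩ := Int.eq_ofNat_of_zero_le hvp.le
    obtain ⟨w', rfl⟩ := Int.eq_ofNat_of_zero_le hwp.le
    have hb1 : (1 : ℤ) ≤ b := hbZ
    have ha1 : (1 : ℤ) ≤ a := haZ
    have hg1 : (1 : ℤ) ≤ g' := hgp
    have hABG : (0 : ℤ) < a * b * g' := mul_pos (mul_pos haZ hbZ) hgp
    have hq : ((r : ℤ) * (u' * v')) * (r * (u' * v')) = (a * b + 1) * ((a * g' + 1) * (b * g' + 1)) := by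
      rw [← hrZ, ← hu2, ← hv2]; ring
    have hq0 : (0 : ℤ) ≤ r * (u' * v') := by positivity
    have hlow : (a * b * g' : ℤ) ≤ r * (u' * v') := by
      apply nonneg_le_nonneg_of_sq_le_sq hq0
      rw [hq]
      have e1 : (0 : ℤ) ≤ a * b := by positivity
      have e2 : (0 : ℤ) ≤ a * g' := by positivity
      have e3 : (0 : ℤ) ≤ b * g' := by positivity
      calc (a * b * g' : ℤ) * (a * b * g') = (a * b) * ((a * g') * (b * g')) := by ring
        _ ≤ (a * b + 1) * ((a * g' + 1) * (b * g' + 1)) := by
          apply mul_le_mul (by linarith) _ (by positivity) (by positivity)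
          exact mul_le_mul (by linarith) (by linarith) e3 (by positivity)
    have hupp : (r : ℤ) * (u' * v') ≤ 3 * (a * b * g') := by
      apply nonneg_le_nonneg_of_sq_le_sq (by positivity)
      rw [hq]
      have e1 : (1 : ℤ) ≤ a * b := by
        have := mul_pos haZ hbZ; linarith
      have e2 : (1 : ℤ) ≤ a * g' := by
        have := mul_pos haZ hgp; linarith
      have e3 : (1 : ℤ) ≤ b * g' := by
        have := mul_pos hbZ hgp; linarith
      calc (a * b + 1 : ℤ) * ((a * g' + 1) * (b * g' + 1))
          ≤ (2 * (a * b)) * ((2 * (a * g')) * (2 * (b * g'))) := by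
            apply mul_le_mul (by linarith) _ (by positivity) (by positivity)
            exact mul_le_mul (by linarith) (by linarith) (by positivity) (by positivity)
        _ = 8 * ((a * b * g') * (a * b * g')) := by ring
        _ ≤ 3 * (a * b * g') * (3 * (a * b * g')) := by
            have := mul_pos hABG hABG
            nlinarith
    refine ⟨g', u', v', w', ?_⟩
    have hcgt : (4 * (a * b * g') : ℤ) < c := by
      rw [hc_eq]; nlinarith
    have hcle : (c : ℤ) ≤ 16 * (a * b * g') := by
      have f1 : (a : ℤ) ≤ a * b * g' := by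
        have : (1 : ℤ) ≤ b * g' := by
          have := mul_pos hbZ hgp; linarith
        calc (a : ℤ) = a * 1 := by ring
          _ ≤ a * (b * g') := mul_le_mul_of_nonneg_left this haZ.le
          _ = _ := by ring
      have f2 : (b : ℤ) ≤ a * b * g' := by
        have : (1 : ℤ) ≤ a * g' := by
          have := mul_pos haZ hgp; linarith
        calc (b : ℤ) = b * 1 := by ring
          _ ≤ b * (a * g') := mul_le_mul_of_nonneg_left this hbZ.le
          _ = _ := by ring
      have f3 : (g' : ℤ) ≤ a * b * g' := by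
        have : (1 : ℤ) ≤ a * b := by
          have := mul_pos haZ hbZ; linarith
        calc (g' : ℤ) = 1 * g' := by ring
          _ ≤ (a * b) * g' := mul_le_mul_of_nonneg_right this hgp.le
      rw [hc_eq]
      linarith
    exact
      { ha := ha
        hab := hab.ne
        hb := lt_trans ha hab
        hr := hr
        hs := hs
        ht := ht
        hg := by exact_mod_cast hgp
        hga := by
          rintro rfl
          exact not_sq_add_one haZ hu2 hup
        hgb := by
          rintro rfl
          exact not_sq_add_one hbZ hv2 hvp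
        hu := by exact_mod_cast hu2
        hv := by exact_mod_cast hv2
        hw := by exact_mod_cast hw2
        hc := by exact_mod_cast hc_eq
        s_eq := by exact_mod_cast hs_eq
        t_eq := by exact_mod_cast ht_eq
        w_eq := by exact_mod_cast hw
        w_eq' := by exact_mod_cast hw'
        u_eq' := by
          have : (u' : ℤ) + a * t = r * s := by linarith
          exact_mod_cast this
        v_eq' := by
          have : (v' : ℤ) + b * s = r * t := by linarith
          exact_mod_cast this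
        c_gt := by exact_mod_cast hcgt
        c_le := by exact_mod_cast hcle }

end Pool.Agent.DIO.H76
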